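import Mathlib

open MeasureTheory Set Cardinal
open scoped ENNReal Topology

namespace Pool.Agent.Results.MP_547692_lc.SquareEquiv

/-- The least cardinality of a set of positive outer `μ`-measure. -/
noncomputable def nonNull {α : Type} [MeasurableSpace α] (μ : Measure α) : Cardinal :=
  sInf {κ : Cardinal | ∃ S : Set α, μ S ≠ 0 ∧ #S = κ}

/-- `X` is naively Haar null: some Borel probability measure (identified with its outer measure)
vanishes on every two-sided translate of `X`. -/
def NaivelyHaarNull {H : Type} [Group H] [MeasurableSpace H] (X : Set H) : Prop :=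
  ∃ μ : Measure H, IsProbabilityMeasure μ ∧ ∀ g h : H, μ ((fun x => g * x * h) '' X) = 0

/-- The pushforward of an atomless finite measure on `ℝ` by its distribution function is at most
Lebesgue measure. -/
lemma map_cdf_le (ν : Measure ℝ) [IsFiniteMeasure ν] [NullSingletonClass ν] :
    ∃ F : ℝ → ℝ, Measurable F ∧ ν.map F ≤ volume := by
  classical
  set F : ℝ → ℝ := fun x => (ν (Iic x)).toReal with hF
  have hmono : Monotone F := by
    intro x y hxy
    exact ENNReal.toReal_mono (measure_ne_top _ _) (measure_mono (Iic_subset_Iic.mpr hxy))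
  have hmeas : Measurable F := hmono.measurable
  refine ⟨F, hmeas, ?_⟩
  have hIoc : ∀ x y : ℝ, x ≤ y → ν (Icc x y) = ENNReal.ofReal (F y - F x) := by
    intro x y hxy
    have h1 : ν (Iic y) = ν (Iic x) + ν (Ioc x y) := by
      rw [← Iic_union_Ioc_eq_Iic hxy]
      exact measure_union (Set.Iic_disjoint_Ioc le_rfl) measurableSet_Ioc
    have h2 : ν (Icc x y) = ν (Ioc x y) := measure_congr Ioc_ae_eq_Icc.symm
    have h3 : F y = F x + (ν (Ioc x y)).toReal := by
      simp only [hF]
      rw [h1, ENNReal.toReal_add (measure_ne_top _ _) (measure_ne_top _ _)]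
    rw [h2, h3, add_sub_cancel_left, ENNReal.ofReal_toReal (measure_ne_top _ _)]
  have key : ∀ a b : ℝ, ν (F ⁻¹' (Ioc a b)) ≤ ENNReal.ofReal (b - a) := by
    intro a b
    rw [(hmeas measurableSet_Ioc).measure_eq_iSup_isCompact]
    refine iSup_le fun K => iSup_le fun hKA => iSup_le fun hK => ?_
    rcases K.eq_empty_or_nonempty with rfl | hne
    · simp
    · have h1 := hK.isLeast_sInf hne
      have h2 := hK.isGreatest_sSup hne
      have h3 : K ⊆ Icc (sInf K) (sSup K) := fun x hx => ⟨h1.2 hx, h2.2 hx⟩
      have h4 : sInf K ≤ sSup K := h1.2 h2.1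
      have h5 := hKA h1.1
      have h6 := hKA h2.1
      calc ν K ≤ ν (Icc (sInf K) (sSup K)) := measure_mono h3
        _ = ENNReal.ofReal (F (sSup K) - F (sInf K)) := hIoc _ _ h4
        _ ≤ ENNReal.ofReal (b - a) := by
          apply ENNReal.ofReal_le_ofReal
          have := h5.1
          have := h6.2
          linarith
  have hvol : (volume : Measure ℝ).toOuterMeasure = StieltjesFunction.id.outer := by
    rw [Real.volume_eq_stieltjes_id, StieltjesFunction.measure]
  have hle : (ν.map F).toOuterMeasure ≤ StieltjesFunction.id.outer := by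
    refine OuterMeasure.le_ofFunction.2 fun s => ?_
    rw [StieltjesFunction.length_eq]
    refine le_iInf fun a => le_iInf fun b => le_iInf fun hs => ?_
    have hbot : (botSet : Set ℝ) = ∅ := by
      ext x
      simp only [botSet, Set.mem_ofPred_eq, Set.mem_empty_iff_false, iff_false]
      intro hx
      have := hx (x - 1)
      linarith
    rw [hbot, Set.sdiff_empty] at hs
    calc (ν.map F).toOuterMeasure s ≤ (ν.map F) (Ioc a b) := measure_mono hs
      _ = ν (F ⁻¹' (Ioc a b)) := Measure.map_apply hmeas measurableSet_Ioc
      _ ≤ _ := key a b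
  rw [Measure.le_iff]
  intro s _
  have := hle s
  rw [← hvol] at this
  exact this

/-- A measurable map to `ℝ` pulling Lebesgue null sets back to null sets, for an atomless finite
measure on a Polish space. -/
lemma exists_map_ac {α : Type} [MeasurableSpace α] [StandardBorelSpace α] (ν : Measure α)
    [IsFiniteMeasure ν] [NullSingletonClass ν] :
    ∃ F : α → ℝ, Measurable F ∧ ∀ N : Set ℝ, volume N = 0 → ν (F ⁻¹' N) = 0 := by
  have he := measurableEmbedding_embeddingReal α
  set e : α → ℝ := embeddingReal α
  have : NullSingletonClass (ν.map e) := by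
    refine ⟨fun x => ?_⟩
    rw [he.map_apply]
    exact (Set.Subsingleton.measure_zero (fun a ha b hb => he.injective (by
      simp only [mem_preimage, mem_singleton_iff] at ha hb
      rw [ha, hb])) ν)
  obtain ⟨F, hF, hle⟩ := map_cdf_le (ν.map e)
  refine ⟨F ∘ e, hF.comp he.measurable, fun N hN => ?_⟩
  obtain ⟨M, hNM, hM, hM0⟩ := exists_measurable_superset_of_null hN
  have h1 : ((ν.map e).map F) M ≤ volume M := hle M
  rw [hM0] at h1
  rw [Measure.map_map hF he.measurable, Measure.map_apply (hF.comp he.measurable) hM] at h1
  exact measure_mono_null (preimage_mono hNM) (nonpos_iff_eq_zero.mp h1)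

/-- A positive set in an uncountable locally compact Polish group yields a Lebesgue positive set
of at most the same cardinality. -/
lemma nonNull_real_le {G : Type} [Group G] [TopologicalSpace G] [IsTopologicalGroup G]
    [PolishSpace G] [LocallyCompactSpace G] [Uncountable G] [MeasurableSpace G] [BorelSpace G]
    (lam : Measure G) [lam.IsHaarMeasure] (S : Set G) (hS : lam S ≠ 0) :
    nonNull (volume : Measure ℝ) ≤ #S := by
  classical
  have : (𝓝[≠] (1 : G)).NeBot := by
    by_contra hne
    rw [Filter.not_neBot] at hne
    have hopen : IsOpen ({1} : Set G) := by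
      rw [isOpen_singleton_iff_nhds_eq_pure, ← nhdsNE_sup_pure, hne, bot_sup_eq]
    have : DiscreteTopology G := discreteTopology_iff_isOpen_singleton_one.mpr hopen
    have : Countable G := by
      exact countable_of_Lindelof_of_discrete
    exact not_countable (α := G) inferInstance
  have : NullSingletonClass lam := inferInstance
  -- find a piece of finite measure
  obtain ⟨n, hn⟩ : ∃ n : ℕ, lam (S ∩ spanningSets lam n) ≠ 0 := by
    by_contra hcon
    push Not at hcon
    apply hS
    have : S = ⋃ n, S ∩ spanningSets lam n := by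
      rw [← inter_iUnion, iUnion_spanningSets, inter_univ]
    rw [this]
    exact measure_iUnion_null hcon
  set ν : Measure G := lam.restrict (spanningSets lam n) with hν
  have : IsFiniteMeasure ν := ⟨by
    rw [hν, Measure.restrict_apply_univ]
    exact measure_spanningSets_lt_top lam n⟩
  have : NullSingletonClass ν := inferInstance
  obtain ⟨F, hF, hnull⟩ := exists_map_ac ν
  have hpos : volume (F '' S) ≠ 0 := by
    intro h0
    have h1 := hnull _ h0
    have h2 : ν S = 0 := measure_mono_null (subset_preimage_image F S) h1
    rw [hν, Measure.restrict_apply' (measurableSet_spanningSets lam n)] at h2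
    exact hn h2
  have hle : nonNull (volume : Measure ℝ) ≤ #(F '' S) := csInf_le' ⟨_, hpos, rfl⟩
  exact hle.trans mk_image_le

/-- In the plane, squares of sets of size less than the continuum are naively Haar null. -/
lemma naivelyHaarNull_sq (S : Set (Multiplicative ℝ)) (hS : #S < 𝔠)
    [MeasurableSpace (Multiplicative ℝ)] [BorelSpace (Multiplicative ℝ)] :
    NaivelyHaarNull (S ×ˢ S) := by
  classical
  have : PolishSpace (Multiplicative ℝ) := inferInstanceAs (PolishSpace ℝ)
  -- the set of slopes to avoid
  let T : Set ℝ := Set.range (fun p : (S × S) × (S × S) =>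
    (Multiplicative.toAdd (p.2.1 : Multiplicative ℝ) - Multiplicative.toAdd (p.2.2 : Multiplicative ℝ)) /
    (Multiplicative.toAdd (p.1.1 : Multiplicative ℝ) - Multiplicative.toAdd (p.1.2 : Multiplicative ℝ)))
  have hT : #T < 𝔠 := by
    refine mk_range_le.trans_lt ?_
    simp only [mk_prod, lift_id]
    exact mul_lt_of_lt aleph0_le_continuum (mul_lt_of_lt aleph0_le_continuum hS hS)
      (mul_lt_of_lt aleph0_le_continuum hS hS)
  obtain ⟨s, hs⟩ : ∃ s : ℝ, s ∉ T := by
    by_contra hcon
    push Not at hcon
    have : T = Set.univ := eq_univ_of_forall hcon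
    rw [this, mk_univ, mk_real] at hT
    exact lt_irrefl _ hT
  let f : ℝ → Multiplicative ℝ × Multiplicative ℝ :=
    fun x => (Multiplicative.ofAdd x, Multiplicative.ofAdd (s * x))
  have hfc : Continuous f := by
    refine Continuous.prodMk continuous_ofAdd (continuous_ofAdd.comp (continuous_const.mul continuous_id))
  have hfi : Function.Injective f := by
    intro x y hxy
    exact Multiplicative.ofAdd.injective (congrArg Prod.fst hxy)
  have hfe : MeasurableEmbedding f := hfc.measurableEmbedding hfi
  refine ⟨(volume.restrict (Icc (0:ℝ) 1)).map f, ?_, ?_⟩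
  · refine ⟨?_⟩
    rw [hfe.map_apply, preimage_univ, Measure.restrict_apply_univ, Real.volume_Icc]
    simp
  · intro g h
    rw [hfe.map_apply]
    apply Set.Subsingleton.measure_zero
    rintro x ⟨⟨m, y⟩, ⟨hm, hy⟩, hxy⟩ x' ⟨⟨m', y'⟩, ⟨hm', hy'⟩, hxy'⟩
    by_contra hne
    simp only [Prod.ext_iff, f] at hxy hxy'
    obtain ⟨h1, h2⟩ := hxy
    obtain ⟨h1', h2'⟩ := hxy'
    have e1 := congrArg Multiplicative.toAdd h1
    have e2 := congrArg Multiplicative.toAdd h2
    have e1' := congrArg Multiplicative.toAdd h1'
    have e2' := congrArg Multiplicative.toAdd h2'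
    simp only [Prod.fst_mul, Prod.snd_mul, toAdd_mul, toAdd_ofAdd] at e1 e2 e1' e2'
    apply hs
    refine ⟨((⟨m, hm⟩, ⟨m', hm'⟩), (⟨y, hy⟩, ⟨y', hy'⟩)), ?_⟩
    have e3 : Multiplicative.toAdd m - Multiplicative.toAdd m' = x - x' := by linarith
    have e4 : Multiplicative.toAdd y - Multiplicative.toAdd y' = s * (x - x') := by linarith
    simp only [e3, e4]
    have : x - x' ≠ 0 := sub_ne_zero.mpr hne
    field_simp

/-- Main theorem: the statement whose provability is asked is equivalent to `non(N) = 𝔠`. -/
theorem result :
    (∀ (G : Type) [Group G] [TopologicalSpace G] [IsTopologicalGroup G] [PolishSpace G]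
        [LocallyCompactSpace G] [Uncountable G] [MeasurableSpace G] [BorelSpace G]
        (lam : Measure G) [lam.IsHaarMeasure],
        ∃ S : Set G, #S = nonNull lam ∧ ¬ NaivelyHaarNull (S ×ˢ S)) ↔
      nonNull (volume : Measure ℝ) = 𝔠 := by
  constructor
  · intro h
    by_contra hne
    have hle : nonNull (volume : Measure ℝ) ≤ 𝔠 := by
      refine csInf_le' ⟨Set.univ, ?_, ?_⟩
      · simp
      · rw [mk_univ, mk_real]
    have hlt : nonNull (volume : Measure ℝ) < 𝔠 := lt_of_le_of_ne hle hne
    have i1 : PolishSpace (Multiplicative ℝ) := inferInstanceAs (PolishSpace ℝ)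
    have i2 : LocallyCompactSpace (Multiplicative ℝ) := inferInstanceAs (LocallyCompactSpace ℝ)
    have i3 : Uncountable (Multiplicative ℝ) := inferInstanceAs (Uncountable ℝ)
    let i4 : MeasurableSpace (Multiplicative ℝ) := borel _
    have i5 : BorelSpace (Multiplicative ℝ) := ⟨rfl⟩
    have hof : MeasurableEmbedding (Multiplicative.ofAdd : ℝ → Multiplicative ℝ) :=
      continuous_ofAdd.measurableEmbedding Multiplicative.ofAdd.injective
    let lam : Measure (Multiplicative ℝ) := (volume : Measure ℝ).map Multiplicative.ofAdd
    have hlam : ∀ S : Set (Multiplicative ℝ), lam S = volume (Multiplicative.ofAdd ⁻¹' S) :=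
      fun S => hof.map_apply _ _
    have i6 : lam.IsHaarMeasure :=
      { lt_top_of_isCompact := by
          intro K hK
          rw [hlam]
          have hK' : IsCompact (Multiplicative.toAdd '' K) := hK.image continuous_toAdd
          have : Multiplicative.ofAdd ⁻¹' K = Multiplicative.toAdd '' K := by
            ext x
            constructor
            · intro hx
              exact ⟨_, hx, rfl⟩
            · rintro ⟨y, hy, rfl⟩
              exact hy
          rw [this]
          exact hK'.measure_lt_top
        map_mul_left_eq_self := by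
          intro g
          have hm : Measurable (fun x : Multiplicative ℝ => g * x) :=
            (continuous_const_mul g).measurable
          ext B hB
          rw [Measure.map_apply hm hB, hlam, hlam]
          have : Multiplicative.ofAdd ⁻¹' ((fun x => g * x) ⁻¹' B) =
              (fun x => Multiplicative.toAdd g + x) ⁻¹' (Multiplicative.ofAdd ⁻¹' B) := rfl
          rw [this]
          exact measure_preimage_add _ _ _
        open_pos := by
          intro U hU hne
          rw [hlam]
          exact (hU.preimage continuous_ofAdd).measure_ne_zero volume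
            (by obtain ⟨x, hx⟩ := hne; exact ⟨Multiplicative.toAdd x, hx⟩) }
    obtain ⟨S, hS, hnot⟩ := h (Multiplicative ℝ) lam
    apply hnot
    apply naivelyHaarNull_sq
    rw [hS]
    have hset : {κ : Cardinal | ∃ S : Set ℝ, (volume : Measure ℝ) S ≠ 0 ∧ #S = κ}.Nonempty :=
      ⟨_, Set.univ, by simp, rfl⟩
    obtain ⟨R, hR, hRc⟩ := csInf_mem hset
    refine lt_of_le_of_lt ?_ hlt
    refine csInf_le' ⟨Multiplicative.ofAdd '' R, ?_, ?_⟩
    · rw [hlam, preimage_image_eq _ Multiplicative.ofAdd.injective]
      exact hR
    · rw [mk_image_eq Multiplicative.ofAdd.injective]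
      exact hRc
  · intro h G _ _ _ _ _ _ _ _ lam _
    refine ⟨Set.univ, ?_, ?_⟩
    · have hG : #G = 𝔠 := by
        have e : G ≃ᵐ ℝ := PolishSpace.measurableEquivOfNotCountable
          (not_countable_iff.mpr inferInstance) (not_countable_iff.mpr inferInstance)
        rw [mk_congr e.toEquiv, mk_real]
      have hpos : lam Set.univ ≠ 0 := isOpen_univ.measure_ne_zero lam Set.univ_nonempty
      rw [mk_univ]
      apply le_antisymm
      · rw [hG]
        refine le_csInf ⟨_, Set.univ, hpos, rfl⟩ ?_
        rintro κ ⟨S, hS, rfl⟩
        rw [← h]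
        exact nonNull_real_le lam S hS
      · exact csInf_le' ⟨Set.univ, hpos, mk_univ⟩
    · rintro ⟨μ, hμ, hμ0⟩
      have := hμ0 1 1
      simp only [one_mul, mul_one, image_id', univ_prod_univ] at this
      exact (IsProbabilityMeasure.ne_zero μ) (Measure.measure_univ_eq_zero.mp this)

end Pool.Agent.Results.MP_547692_lc.SquareEquiv
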