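import Pool.Agent.Lib.MP_547692_lc.Final

/-!
# A model of `ZFC` in which the squares of all subsets of the Cantor group of size at most
`non(N)` are naively Haar null
-/

namespace Pool.Agent.Results.MP_547692_lc.ZFCModel

open Pool.Agent.Lib.MP_547692_lc Pool.Agent.Lib.MP_1ab623_gt Pool.Agent.Lib.MP_1929a6_lc

/-- There is a model `(M, E)` of `ZFC` in which the following holds for the Cantor group
`G = (Z/2)^w`: for every `S ⊆ G` of cardinality at most `non(N)` there is an `m` in `G` such that
every translate of `S × S` in `G × G` has at most one point in common with the graph of the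
continuous homomorphism `x ↦ x ⊗ m` from `G` to `G`.  So the image of the Haar measure of `G` under
`x ↦ (x, x ⊗ m)` vanishes on all translates of `S × S`, and `S × S` is naively Haar null. -/
theorem result : ∃ (M : Type) (E : M → M → Prop), IsZFC E ∧
    ∃ w t pr : M, IsOmega E w ∧ IsTwo E t ∧ IsPairing E w pr ∧
      ∀ S, AtMostNonN E w t S →
        ∃ m, IsFunction E m w t ∧ GraphMeetsTranslatesOnce E w t pr m S :=
  Pool.Agent.Lib.MP_547692_lc.exists_ZFC_model

end Pool.Agent.Results.MP_547692_lc.ZFCModel
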